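import Pool.Agent.Helper1.MT.DefsU
import Pool.Agent.Helper74.MT.SumAll

/-!
# MU-N1: the sieve sum over all integers, uniformly in the modulus, with allowed colours
-/

set_option autoImplicit false

open Finset Filter

namespace Pool.Agent.Helper18.MT

open Pool.Agent.Helper1.MT
open Pool.Agent.Helper74.MT

/-- The colouring attached to `n`, with the allowed colours `a`. -/
noncomputable def sigA {κ : Type} {R W : ℕ} (h : κ → ℕ) (a : PS R W → Finset κ) (n : ℕ)
    (p : PS R W) : Option κ := by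
  classical exact if hx : ∃ i, i ∈ a p ∧ (p : ℕ) ∣ n + h i then some hx.choose else none

theorem sigA_eq_some {κ : Type} {R W : ℕ} {h : κ → ℕ} {a : PS R W → Finset κ}
    (ha : ∀ p, ∀ i ∈ a p, ∀ i' ∈ a p, i ≠ i' → ¬ ((p : ℕ) : ℤ) ∣ (h i : ℤ) - h i') (n : ℕ)
    (p : PS R W) (i : κ) : sigA h a n p = some i ↔ i ∈ a p ∧ (p : ℕ) ∣ n + h i := by
  classical
  unfold sigA
  constructor
  · intro hx
    split_ifs at hx with h1
    · have h2 := h1.choose_spec
      rw [Option.some.injEq] at hx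
      rwa [hx] at h2
  · intro hx
    have h1 : ∃ i, i ∈ a p ∧ (p : ℕ) ∣ n + h i := ⟨i, hx⟩
    rw [dif_pos h1, Option.some.injEq]
    by_contra hne
    have h2 := h1.choose_spec
    refine ha p _ h2.1 i hx.1 hne ?_
    have h4 : ((p : ℕ) : ℤ) ∣ ((n + h h1.choose : ℕ) : ℤ) := by exact_mod_cast h2.2
    have h5 : ((p : ℕ) : ℤ) ∣ ((n + h i : ℕ) : ℤ) := by exact_mod_cast hx.2
    have h6 := dvd_sub h4 h5
    push_cast at h6
    rwa [add_sub_add_left_eq_sub] at h6

theorem le_sigA_iff {κ : Type} [DecidableEq κ] {R W : ℕ} {h : κ → ℕ} {a : PS R W → Finset κ}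
    (ha : ∀ p, ∀ i ∈ a p, ∀ i' ∈ a p, i ≠ i' → ¬ ((p : ℕ) : ℤ) ∣ (h i : ℤ) - h i')
    (n : ℕ) (c : PS R W → Option κ) (hc : ∀ p i, c p = some i → i ∈ a p) :
    Le c (sigA h a n) ↔ Dv h c n := by
  unfold Le Dv
  constructor
  · intro h0 p i hi
    rcases h0 p with h1 | h1
    · rw [h1] at hi
      exact absurd hi (by simp)
    · rw [h1] at hi
      exact ((sigA_eq_some ha n p i).1 hi).2
  · intro h0 p
    rcases hcp : c p with _ | i
    · exact Or.inl rfl
    · exact Or.inr ((sigA_eq_some ha n p i).2 ⟨hc p i hcp, h0 p i hcp⟩).symm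

theorem lam_ne_zero' {ι κ : Type} [Fintype ι] [Fintype κ] [DecidableEq ι] [DecidableEq κ]
    {w : ι → ℝ} {y : (ι → Option κ) → ℝ} {c : ι → Option κ}
    (h : lam w y c ≠ 0) : ∃ c' : ι → Option κ, y c' ≠ 0 ∧ ∀ p i, c p = some i → c' p = some i := by
  unfold lam at h
  obtain ⟨c', -, hc'⟩ := Finset.exists_ne_zero_of_sum_ne_zero h
  refine ⟨c', right_ne_zero_of_mul hc', ?_⟩
  intro p i hp
  have h1 := Finset.prod_ne_zero_iff.1 (left_ne_zero_of_mul hc') p (Finset.mem_univ p)
  rw [hp] at h1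
  rcases hcp : c' p with _ | j
  · rw [hcp] at h1
    simp [inv] at h1
  · rw [hcp] at h1
    simp only [inv] at h1
    split_ifs at h1 with h2
    · rw [h2]
    · exact absurd rfl h1

theorem sumGen_core (hE : Expand) {κ : Type} [Fintype κ] [DecidableEq κ] {h : κ → ℕ}
    {W v : ℕ} (hW : 0 < W) {x L : ℝ} (hx9 : 9 ≤ x) (hL : 0 < L)
    (hWx : (W : ℝ) ≤ x ^ (23 / 54 : ℝ))
    (hKx : 4 * Real.exp (4 * Fintype.card κ) ^ 2 * L ≤ x ^ (53 / 162 : ℝ))
    {R : ℕ} (hR2 : 2 ≤ R) (hRx : (R : ℝ) ≤ x ^ (1 / 81 : ℝ)) (a : PS R W → Finset κ)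
    (ha : ∀ p, ∀ i ∈ a p, ∀ i' ∈ a p, i ≠ i' → ¬ ((p : ℕ) : ℤ) ∣ (h i : ℤ) - h i')
    (y : (PS R W → Option κ) → ℝ) (hy : ∀ c, |y c| ≤ R)
    (hT : ∀ c, y c ≠ 0 → T (tp R W) (supp c) ≤ 3)
    (hya : ∀ c, y c ≠ 0 → ∀ p i, c p = some i → i ∈ a p) :
    |∑ n ∈ NS x W v, (1 / (n : ℝ)) * sw h (lam (wp R W) y) n -
      (Real.log x / (2 * W)) * Qf (fun p => pr κ (wp R W p)) (lam (wp R W) y)| ≤ 1 / L := by
  set K : ℕ := Fintype.card κ with hK
  have hx0 : 0 < x := by linarith
  have hx1 : 1 ≤ x := by linarith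
  have hR0 : (0 : ℝ) < R := by exact_mod_cast (by omega : 0 < R)
  set f := lam (wp R W) y with hf
  have hfa : ∀ c, f c ≠ 0 → ∀ p i, c p = some i → i ∈ a p := by
    intro c hc p i hp
    obtain ⟨c', hc', hcc⟩ := lam_ne_zero' hc
    exact hya c' hc' p i (hcc p i hp)
  have hfsupp : ∀ c, f c ≠ 0 → ∏ p ∈ supp c, ((p : ℕ) : ℝ) ≤ (R : ℝ) ^ 3 := by
    intro c hc
    obtain ⟨c', hc', hsub⟩ := lam_ne_zero hc
    refine le_trans ?_ (prod_supp_le hR2 (supp c') 3 (by exact_mod_cast hT c' hc'))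
    exact_mod_cast (Finset.prod_le_prod_of_subset_of_one_le' (f := fun p : PS R W => (p : ℕ)) hsub
      (fun p _ _ => (PS_prime p).pos))
  set e : ℝ := 4 / x ^ (1 / 2 : ℝ) with he
  have he0 : 0 < e := by positivity
  have hmain := hE (PS R W) κ (fun p => pr κ (wp R W p)) f (NS x W v) (fun n => 1 / (n : ℝ))
    (fun n => sigA h a n) (Real.log x / (2 * W)) (fun _ => e) ?_ ?_
  · have hlhs : ∑ n ∈ NS x W v, (1 / (n : ℝ)) * sw h f n =
        ∑ n ∈ NS x W v, (1 / (n : ℝ)) *
          (∑ c ∈ univ.filter (fun c : PS R W → Option κ => Le c (sigA h a n)), f c) ^ 2 := by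
      classical
      apply Finset.sum_congr rfl
      intro n _
      congr 1
      unfold sw
      congr 1
      rw [Finset.sum_filter, Finset.sum_filter]
      apply Finset.sum_congr rfl
      intro c _
      by_cases hfc : f c = 0
      · rw [hfc]
        simp
      · have h1 := le_sigA_iff ha n c (hfa c hfc)
        by_cases h2 : Dv h c n
        · rw [if_pos h2, if_pos (h1.2 h2)]
        · rw [if_neg h2, if_neg (fun h3 => h2 (h1.1 h3))]
    rw [hlhs]
    refine hmain.trans ?_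
    calc ∑ c : PS R W → Option κ, ∑ c' : PS R W → Option κ,
          (open Classical in if Compat c c' then |f c| * |f c'| * e else 0)
        ≤ ∑ c : PS R W → Option κ, ∑ c' : PS R W → Option κ, |f c| * |f c'| * e := by
          apply Finset.sum_le_sum
          intro c _
          apply Finset.sum_le_sum
          intro c' _
          split_ifs
          · exact le_rfl
          · positivity
      _ = e * (∑ c : PS R W → Option κ, |f c|) ^ 2 := by
          rw [sq, Finset.sum_mul_sum, Finset.mul_sum]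
          apply Finset.sum_congr rfl
          intro c _
          rw [Finset.mul_sum]
          apply Finset.sum_congr rfl
          intro c' _
          ring
      _ ≤ e * ((R : ℝ) ^ 7 * Real.exp (4 * K)) ^ 2 := by
          apply mul_le_mul_of_nonneg_left _ he0.le
          apply pow_le_pow_left₀ (Finset.sum_nonneg fun c _ => abs_nonneg _)
          exact sum_abs_lam_bound hR2 y hy hT
      _ ≤ e * ((x ^ (1 / 81 : ℝ)) ^ 7 * Real.exp (4 * K)) ^ 2 := by gcongr
      _ = (4 * Real.exp (4 * K) ^ 2 * L) * (x ^ (14 / 81 : ℝ) * (x ^ (1 / 2 : ℝ))⁻¹) / L := by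
          have h1 : x ^ (14 / 81 : ℝ) = (x ^ (1 / 81 : ℝ)) ^ 14 := by
            rw [← Real.rpow_natCast, ← Real.rpow_mul hx0.le]
            norm_num
          rw [h1, he]
          field_simp
      _ ≤ x ^ (53 / 162 : ℝ) * (x ^ (14 / 81 : ℝ) * (x ^ (1 / 2 : ℝ))⁻¹) / L := by gcongr
      _ = 1 / L := by
          congr 1
          rw [← Real.rpow_neg hx0.le, ← Real.rpow_add hx0, ← Real.rpow_add hx0]
          norm_num
  · intro p
    rw [Fintype.sum_option]
    simp only [pr, Finset.sum_const, Finset.card_univ, nsmul_eq_mul]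
    ring
  · intro c c' hc hc' _
    set U := Pool.Agent.Helper1.MT.join c c' with hU
    have hUa : ∀ p i, U p = some i → i ∈ a p := by
      intro p i hp
      rw [hU] at hp
      unfold Pool.Agent.Helper1.MT.join at hp
      split_ifs at hp with h1
      · exact hfa c hc p i hp
      · exact hfa c' hc' p i hp
    have hUprod : ∏ p ∈ supp U, ((p : ℕ) : ℝ) ≤ (R : ℝ) ^ 6 := by
      have hsub : supp U ⊆ supp c ∪ supp c' := by
        intro p hp
        rw [mem_supp, hU, ne_eq, join_eq_none] at hp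
        rw [mem_union, mem_supp, mem_supp]
        tauto
      have h1 : ∏ p ∈ supp U, (p : ℕ) ≤ ∏ p ∈ supp c ∪ supp c', (p : ℕ) :=
        Finset.prod_le_prod_of_subset_of_one_le' hsub (fun p _ _ => (PS_prime p).pos)
      have h2 : ∏ p ∈ supp c ∪ supp c', (p : ℕ) ≤
          (∏ p ∈ supp c, (p : ℕ)) * ∏ p ∈ supp c', (p : ℕ) := by
        rw [← Finset.prod_union_inter]
        exact Nat.le_mul_of_pos_right _ (Finset.prod_pos fun p _ => (PS_prime p).pos)
      have h3 := hfsupp c hc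
      have h4 := hfsupp c' hc'
      calc ∏ p ∈ supp U, ((p : ℕ) : ℝ)
          ≤ (∏ p ∈ supp c, ((p : ℕ) : ℝ)) * ∏ p ∈ supp c', ((p : ℕ) : ℝ) := by
            exact_mod_cast h1.trans h2
        _ ≤ (R : ℝ) ^ 3 * (R : ℝ) ^ 3 := by
            apply mul_le_mul h3 h4 _ (by positivity)
            exact Finset.prod_nonneg fun p _ => Nat.cast_nonneg _
        _ = (R : ℝ) ^ 6 := by ring
    obtain ⟨b, hb⟩ := crt_exists (R := R) (W := W) v
      (fun p => match U p with | some i => h i | none => 0) (supp U)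
    set q : ℕ := W * ∏ p ∈ supp U, (p : ℕ) with hq
    have hq0 : 0 < q := Nat.mul_pos hW (Finset.prod_pos fun p _ => (PS_prime p).pos)
    have hqx : (q : ℝ) ≤ x ^ (1 / 2 : ℝ) := by
      rw [hq]
      push_cast
      calc (W : ℝ) * ∏ p ∈ supp U, ((p : ℕ) : ℝ) ≤ x ^ (23 / 54 : ℝ) * (x ^ (1 / 81 : ℝ)) ^ 6 := by
            apply mul_le_mul hWx _ _ (by positivity)
            · exact hUprod.trans (by gcongr)
            · exact Finset.prod_nonneg fun p _ => Nat.cast_nonneg _
        _ = x ^ (1 / 2 : ℝ) := by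
            rw [← Real.rpow_natCast, ← Real.rpow_mul hx0.le, ← Real.rpow_add hx0]
            norm_num
    have hset : (NS x W v).filter (fun n => Le U (sigA h a n)) =
        (Ioc ⌊x ^ (1 / 2 : ℝ)⌋₊ ⌊x⌋₊).filter (fun n => n ≡ b [MOD q]) := by
      unfold NS
      rw [filter_filter]
      ext n
      rw [mem_filter, mem_filter, ← hb n, le_sigA_iff ha n U hUa]
      apply and_congr_right
      intro _
      apply and_congr_right
      intro _
      unfold Dv
      constructor
      · intro h1 p hp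
        rw [mem_supp] at hp
        rcases hUp : U p with _ | i
        · exact absurd hUp hp
        · simp only
          exact h1 p i hUp
      · intro h1 p i hUp
        have h2 := h1 p ((mem_supp U p).2 (by rw [hUp]; simp))
        rw [hUp] at h2
        exact h2
    have hprod : Real.log x / (2 * W) * ∏ p ∈ supp U, pr κ (wp R W p) (U p) =
        Real.log x / (2 * q) := by
      have h1 : ∏ p ∈ supp U, pr κ (wp R W p) (U p) = ∏ p ∈ supp U, (((p : ℕ) : ℝ))⁻¹ := by
        apply Finset.prod_congr rfl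
        intro p hp
        rw [mem_supp] at hp
        rcases hUp : U p with _ | i
        · exact absurd hUp hp
        · simp only [pr, wp, one_div]
      rw [h1, Finset.prod_inv_distrib, hq]
      push_cast
      have hW' : (W : ℝ) ≠ 0 := by exact_mod_cast hW.ne'
      have hP : (∏ p ∈ supp U, ((p : ℕ) : ℝ)) ≠ 0 :=
        Finset.prod_ne_zero_iff.2 fun p _ => by exact_mod_cast (PS_prime p).ne_zero
      field_simp
    rw [hset, hprod]
    exact class_sum_real hx9 q b hq0 hqx

/-- MU-N1. -/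
theorem sumGen (hE : Expand) : SumGen := by
  intro κ _ _ D0 A _hD0 hA
  have ev1 : ∀ᶠ x : ℝ in atTop, Real.log x ^ A ≤ x ^ (23 / 54 : ℝ) := by
    have h1 := (isLittleO_log_rpow_rpow_atTop A (by norm_num : (0 : ℝ) < 23 / 54)).bound
      (c := 1) one_pos
    filter_upwards [h1, eventually_ge_atTop (3 : ℝ)] with x hx hx3
    rw [one_mul] at hx
    refine (le_abs_self _).trans (hx.trans (le_of_eq ?_))
    exact abs_of_nonneg (Real.rpow_nonneg (by linarith) _)
  have ev2 : ∀ᶠ x : ℝ in atTop,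
      4 * Real.exp (4 * Fintype.card κ) ^ 2 * Real.log x ^ A ≤ x ^ (53 / 162 : ℝ) := by
    have h1 := (isLittleO_log_rpow_rpow_atTop A (by norm_num : (0 : ℝ) < 53 / 162)).bound
      (c := (4 * Real.exp (4 * Fintype.card κ) ^ 2)⁻¹) (by positivity)
    filter_upwards [h1, eventually_ge_atTop (3 : ℝ)] with x hx hx3
    have h2 : Real.log x ^ A ≤ (4 * Real.exp (4 * Fintype.card κ) ^ 2)⁻¹ * x ^ (53 / 162 : ℝ) := by
      refine (le_abs_self _).trans (hx.trans (le_of_eq ?_))
      congr 1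
      exact abs_of_nonneg (Real.rpow_nonneg (by linarith) _)
    have h3 : (0 : ℝ) < 4 * Real.exp (4 * Fintype.card κ) ^ 2 := by positivity
    calc 4 * Real.exp (4 * Fintype.card κ) ^ 2 * Real.log x ^ A
        ≤ 4 * Real.exp (4 * Fintype.card κ) ^ 2 *
          ((4 * Real.exp (4 * Fintype.card κ) ^ 2)⁻¹ * x ^ (53 / 162 : ℝ)) :=
          mul_le_mul_of_nonneg_left h2 h3.le
      _ = x ^ (53 / 162 : ℝ) := by
          rw [← mul_assoc, mul_inv_cancel₀ h3.ne', one_mul]
  have ev3 : ∀ᶠ x : ℝ in atTop, (2 : ℝ) ≤ x ^ (1 / 81 : ℝ) :=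
    (tendsto_rpow_atTop (by norm_num)).eventually (eventually_ge_atTop _)
  obtain ⟨X1, hX1⟩ := eventually_atTop.1 (ev1.and (ev2.and ev3))
  refine ⟨max 9 X1, le_trans (by norm_num) (le_max_left _ _), ?_⟩
  intro x hx h W v hW _hsmall hWA a ha y hy hT hya
  have hx9 : 9 ≤ x := (le_max_left _ _).trans hx
  obtain ⟨hWx, hKx, h2x⟩ := hX1 x ((le_max_right _ _).trans hx)
  have hlog : 0 < Real.log x ^ A :=
    Real.rpow_pos_of_pos (Real.log_pos (by linarith)) _
  refine sumGen_core hE hW hx9 hlog (hWA.trans hWx) hKx ?_ ?_ a ha y hy hT hya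
  · unfold lev
    exact Nat.le_floor (by exact_mod_cast h2x)
  · unfold lev
    exact Nat.floor_le (Real.rpow_nonneg (by linarith) _)

end Pool.Agent.Helper18.MT
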