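import Pool.Agent.Helper1.MT.Defs

/-!
# Project MT, module MT-C: the shifts and the congruence class
-/

set_option autoImplicit false

open Finset

namespace Pool.Agent.Helper18.MT

open Pool.Agent.Helper1.MT

/-- The shifts. -/
private def hh (Q D : ℕ) {M κ0 : ℕ} (a : Fin M × Fin κ0) : ℕ := Q * (a.1.val * D + a.2.val)

private theorem hh_le {Q D M κ0 : ℕ} (hκ : κ0 ≤ D) (a : Fin M × Fin κ0) :
    hh Q D a ≤ Q * M * D := by
  have h1 : a.1.val + 1 ≤ M := a.1.isLt
  have h2 : a.2.val ≤ D := a.2.isLt.le.trans hκ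
  calc hh Q D a ≤ Q * ((a.1.val + 1) * D) := by
        unfold hh; gcongr; nlinarith
    _ ≤ Q * (M * D) := by gcongr
    _ = Q * M * D := by ring

private theorem hh_inj {Q D M κ0 : ℕ} (hQ : 0 < Q) (hκ : κ0 ≤ D) :
    Function.Injective (fun a : Fin M × Fin κ0 => hh Q D a) := by
  rintro ⟨a, b⟩ ⟨c, d⟩ h
  simp only [hh] at h
  have h1 := Nat.eq_of_mul_eq_mul_left hQ h
  have hb : b.val < D := b.isLt.trans_le hκ
  have hd : d.val < D := d.isLt.trans_le hκ
  have hac : a.val = c.val := by
    rcases lt_trichotomy a.val c.val with h2 | h2 | h2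
    · have : (a.val + 1) * D ≤ c.val * D := Nat.mul_le_mul_right _ h2
      nlinarith
    · exact h2
    · have : (c.val + 1) * D ≤ a.val * D := Nat.mul_le_mul_right _ h2
      nlinarith
  have hbd : b.val = d.val := by rw [hac] at h1; omega
  rw [Prod.mk.injEq]
  exact ⟨Fin.ext hac, Fin.ext hbd⟩

/-- A residue which avoids the shifts. -/
private theorem avoid {M κ0 p : ℕ} (hp : M * κ0 < p) (h : Fin M × Fin κ0 → ℕ) :
    ∃ r : ℕ, ∀ a, ¬ p ∣ r + h a := by
  by_contra hcon
  push Not at hcon
  choose f hf using hcon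
  have hinj : Set.InjOn f (range p : Set ℕ) := by
    intro r hr s hs hrs
    have h1 := hf r
    have h2 := hf s
    rw [← hrs] at h2
    have h3 : r ≡ s [MOD p] := by
      have h4 : r + h (f r) ≡ s + h (f r) [MOD p] :=
        ((Nat.modEq_zero_iff_dvd.2 h1).trans (Nat.modEq_zero_iff_dvd.2 h2).symm)
      exact Nat.ModEq.add_right_cancel' _ h4
    have hr' := Finset.mem_range.1 (Finset.mem_coe.1 hr)
    have hs' := Finset.mem_range.1 (Finset.mem_coe.1 hs)
    exact h3.eq_of_lt_of_lt hr' hs'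
  have hcard : (range p).card ≤ (univ : Finset (Fin M × Fin κ0)).card :=
    Finset.card_le_card_of_injOn f (fun _ _ => Finset.mem_coe.2 (mem_univ _)) hinj
  rw [card_range, card_univ, Fintype.card_prod, Fintype.card_fin, Fintype.card_fin] at hcard
  omega

theorem shifts : Shifts := by
  intro M κ0 D0 hM hκ0 hD0
  refine ⟨D0.factorial, Nat.factorial_pos _, ?_⟩
  intro D hD
  set Q := D0.factorial with hQ
  have hQ0 : 0 < Q := Nat.factorial_pos _
  set L := Q * M * D with hL
  -- the primes which cut the shifts outside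
  set q : ℕ → ℕ := fun j => Nat.nth Nat.Prime (L + D0 + 2 + j) with hq
  have hqp : ∀ j, (q j).Prime := fun j => Nat.prime_nth_prime _
  have hqge : ∀ j, L + D0 + 2 + j ≤ q j := fun j =>
    Nat.le_nth (fun h => absurd h Nat.infinite_setOf_prime)
  have hqinj : ∀ i j, q i = q j → i = j := by
    intro i j h
    have := (Nat.nth_injective Nat.infinite_setOf_prime) h
    omega
  have hqmono : ∀ j, j ≤ L → q j ≤ q L := by
    intro j hj
    exact (Nat.nth_monotone Nat.infinite_setOf_prime) (by omega)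
  set H : ℕ → Prop := fun j => ∃ a : Fin M × Fin κ0, j = hh Q D a with hH
  -- residues
  have hres : ∀ p : ℕ, p.Prime → ∃ r : ℕ, (∀ a : Fin M × Fin κ0, ¬ p ∣ r + hh Q D a) ∧
      ∀ j, j ≤ L → ¬ H j → p = q j → p ∣ r + j := by
    intro p hp
    by_cases hj : ∃ j, j ≤ L ∧ ¬ H j ∧ p = q j
    · obtain ⟨j, hjL, hjH, hpj⟩ := hj
      have hjp : j < p := by rw [hpj]; have := hqge j; omega
      refine ⟨p - j, ?_, ?_⟩
      · intro a hdvd
        have haL := hh_le (Q := Q) hD a
        rw [← hL] at haL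
        have hne : hh Q D a ≠ j := fun h => hjH ⟨a, h.symm⟩
        have hpL : L < p := by rw [hpj]; have := hqge j; omega
        rcases lt_or_gt_of_ne hne with hlt | hgt
        · have h1 : p ≤ p - j + hh Q D a := Nat.le_of_dvd (by omega) hdvd
          omega
        · have h1 : p ∣ hh Q D a - j := by
            have h2 : p - j + hh Q D a = p + (hh Q D a - j) := by omega
            rw [h2] at hdvd
            exact (Nat.dvd_add_right (dvd_refl p)).1 hdvd
          have h3 := Nat.le_of_dvd (by omega) h1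
          omega
      · intro i _ _ hpi
        have hij : i = j := hqinj i j (by rw [← hpi, hpj])
        rw [hij, Nat.sub_add_cancel hjp.le]
    · push Not at hj
      by_cases hpD : p < D0
      · refine ⟨1, ?_, fun j hjL hjH hpj => absurd hpj (hj j hjL hjH)⟩
        intro a hdvd
        have hpQ : p ∣ hh Q D a :=
          Dvd.dvd.mul_right ((hp.dvd_factorial).2 hpD.le) _
        have := (Nat.dvd_add_left hpQ).1 hdvd
        exact hp.one_lt.ne' (Nat.dvd_one.1 this)
      · obtain ⟨r, hr⟩ := avoid (p := p) (by omega) (fun a : Fin M × Fin κ0 => hh Q D a)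
        exact ⟨r, hr, fun j hjL hjH hpj => absurd hpj (hj j hjL hjH)⟩
  choose! r hr1 hr2 using hres
  set X := q L with hX
  set S := (range (X + 1)).filter Nat.Prime with hS
  have hSp : ∀ p ∈ S, p.Prime := fun p hp => (mem_filter.1 hp).2
  have hco : Set.Pairwise (S : Set ℕ) (Function.onFun Nat.Coprime (fun p : ℕ => p)) := by
    intro a ha b hb hab
    exact (Nat.coprime_primes (hSp a (mem_coe.1 ha)) (hSp b (mem_coe.1 hb))).2 hab
  obtain ⟨v, hv⟩ := Nat.chineseRemainderOfFinset r (fun p : ℕ => p) S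
    (fun p hp => (hSp p hp).ne_zero) hco
  set W := ∏ p ∈ S, p with hW
  have hWd : ∀ p, p.Prime → p ≤ X → p ∣ W := by
    intro p hp hpX
    exact dvd_prod_of_mem _ (mem_filter.2 ⟨mem_range.2 (by omega), hp⟩)
  have hWpos : 0 < W := Finset.prod_pos fun p hp => (hSp p hp).pos
  have hXge : L + D0 + 2 ≤ X := by have := hqge L; omega
  refine ⟨W, v, ⟨hWpos, ?_, ?_, ?_, ?_⟩, ?_⟩
  · intro p hp hpD
    exact hWd p hp (by omega)
  · intro i j hij p hp hdvd
    have hi : hh Q D i ≤ L := hh_le hD i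
    have hj : hh Q D j ≤ L := hh_le hD j
    have hne : hh Q D i ≠ hh Q D j := fun h => hij (hh_inj hQ0 hD h)
    apply hWd p hp
    have h1 : p ∣ (((hh Q D i : ℕ) : ℤ) - ((hh Q D j : ℕ) : ℤ)).natAbs := Int.natCast_dvd.1 hdvd
    have h2 := Nat.le_of_dvd (by omega) h1
    omega
  · exact hh_inj hQ0 hD
  · intro i
    show Nat.Coprime (v + hh Q D i) W
    refine Nat.Coprime.prod_right fun p hp => ?_
    have hpp := hSp p hp
    rw [Nat.coprime_comm, hpp.coprime_iff_not_dvd]
    intro hdvd
    apply hr1 p hpp i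
    have h1 : v + hh Q D i ≡ r p + hh Q D i [MOD p] := Nat.ModEq.add_right _ (hv p hp)
    exact (Nat.modEq_zero_iff_dvd).1 (h1.symm.trans ((Nat.modEq_zero_iff_dvd).2 hdvd))
  · intro n hn hWn j hj hprime
    by_contra hjH
    have hjH' : ¬ H j := hjH
    have hqX : q j ≤ X := hqmono j hj
    have hqS : q j ∈ S := mem_filter.2 ⟨mem_range.2 (by omega), hqp j⟩
    have h2 : q j ∣ r (q j) + j := hr2 (q j) (hqp j) j hj hjH' rfl
    have h3 : n + j ≡ r (q j) + j [MOD q j] :=
      Nat.ModEq.add_right _ ((hn.of_dvd (dvd_prod_of_mem _ hqS)).trans (hv _ hqS))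
    have h4 : q j ∣ n + j :=
      (Nat.modEq_zero_iff_dvd).1 (h3.trans ((Nat.modEq_zero_iff_dvd).2 h2))
    have h5 : q j = n + j := (Nat.prime_dvd_prime_iff_eq (hqp j) hprime).1 h4
    have h6 : 2 * q j ∣ W := by
      apply Nat.Coprime.mul_dvd_of_dvd_of_dvd
      · refine (Nat.coprime_primes Nat.prime_two (hqp j)).2 ?_
        have := hqge j; have := (Nat.factorial_pos D0); omega
      · exact hWd 2 Nat.prime_two (by omega)
      · exact hWd _ (hqp j) hqX
    have h7 := Nat.le_of_dvd hWpos h6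
    have := (hqp j).pos
    omega

end Pool.Agent.Helper18.MT
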